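import Mathlib

/-!
# The gap between the first two binary digits of `c_m(n)` is unbounded for `m = 2^10 - 1`

Let `F = ∏_j ((1 + x^{2^j}) / (1 - x^{2^j}))^m = ∑ c_m(n) x^n`, `m` odd.  Reading the binary digits
of `n` from the lowest one, the coefficients of `x^{n + 2^b i}` in the partial products are of the
form `∑_d s_d 2^d C(i, d)` with integers `s_d`, and a digit `0` acts on the vectors `s` by a linear
map `L` which preserves `s_0` and is divisible by `2` on the vectors with `s_0 = 0`.  Hence a long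
run of zeros followed by a digit `1` multiplies `c_m(n)` by a `2`-adic number `κ` not depending on
`n`.  For `m = 1023` one has `κ ≡ -1 + 2^12 (mod 2^13)`, and `c_1023(34) ≡ 2^11 (mod 2^24)`.  So the
numbers `κ^r c_1023(34)`, `r` even, accumulate at `2^11`, which makes `u_1023(n)` unbounded.
(Already `u_1023(34) = 13 > 10` contradicts the stronger conjecture `u_{2^{2k}-1}(n) ≤ 2k`.)
-/

set_option autoImplicit false

namespace Pool.Agent.Results.MP_8a294c_nt.Unbounded

open PowerSeries Finset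

/-! ### Statement -/

/-- The power series `1 / (1 - x^d) = ∑_{d ∣ n} x^n`. -/
noncomputable def geo (d : ℕ) : PowerSeries ℤ := PowerSeries.mk fun n => if d ∣ n then 1 else 0

/-- `c m n` is the coefficient of `x^n` in `(1-x)^{-m} ∏_{j ≥ 0} (1 - x^{2^j})^{-m}`.  The factors
with `j > n` have `2^j > n` and do not influence this coefficient, so the product is cut off. -/
noncomputable def c (m n : ℕ) : ℤ :=
  coeff n (geo 1 ^ m * ∏ j ∈ range (n + 1), geo (2 ^ j) ^ m)

/-- The odd part of an integer. -/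
def oddPart (a : ℤ) : ℤ := a / 2 ^ padicValInt 2 a

/-- `u_m(n) = ν_2(q - 1)` where `q` is the odd part of `c_m(n)`; it is `⊤` if `q = 1`. -/
noncomputable def u (m n : ℕ) : ℕ∞ := emultiplicity 2 (oddPart (c m n) - 1)

/-! ### The functional -/

section functional

open Polynomial

/-- the linear functional on polynomials with `X^d ↦ b d` -/
noncomputable def phi (b : ℕ → ℤ) : ℤ[X] →ₗ[ℤ] ℤ :=
  Polynomial.lsum fun d => (b d) • (LinearMap.id : ℤ →ₗ[ℤ] ℤ)

lemma phi_mono (b : ℕ → ℤ) (d : ℕ) (a : ℤ) : phi b (monomial d a) = a * b d := by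
  simp [phi, Polynomial.lsum_apply, Polynomial.sum_monomial_index, mul_comm]

lemma phi_one (b : ℕ → ℤ) : phi b 1 = b 0 := by
  have := phi_mono b 0 1
  simpa using this

lemma phi_Xpow (b : ℕ → ℤ) (d : ℕ) : phi b (Polynomial.X ^ d) = b d := by
  have := phi_mono b d 1
  rw [← Polynomial.X_pow_eq_monomial] at this
  simpa using this

lemma phi_mul_X (b : ℕ → ℤ) (p : ℤ[X]) : phi b (p * Polynomial.X) = phi (fun d => b (d + 1)) p := by
  induction p using Polynomial.induction_on' with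
  | add p q hp hq => rw [add_mul, map_add, map_add, hp, hq]
  | monomial d a => rw [Polynomial.monomial_mul_X, phi_mono, phi_mono]

lemma phi_add (b b' : ℕ → ℤ) (p : ℤ[X]) : phi (fun d => b d + b' d) p = phi b p + phi b' p := by
  induction p using Polynomial.induction_on' with
  | add p q hp hq => rw [map_add, map_add, map_add, hp, hq]; ring
  | monomial d a => rw [phi_mono, phi_mono, phi_mono]; ring

lemma phi_smul (k : ℤ) (b : ℕ → ℤ) (p : ℤ[X]) : phi (fun d => k * b d) p = k * phi b p := by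
  induction p using Polynomial.induction_on' with
  | add p q hp hq => rw [map_add, map_add, hp, hq]; ring
  | monomial d a => rw [phi_mono, phi_mono]; ring

lemma phi_dvd (k : ℤ) (b : ℕ → ℤ) (h : ∀ d, k ∣ b d) (p : ℤ[X]) : k ∣ phi b p := by
  induction p using Polynomial.induction_on' with
  | add p q hp hq => rw [map_add]; exact dvd_add hp hq
  | monomial d a => rw [phi_mono]; exact Dvd.dvd.mul_left (h d) a

/-- `ev b n = ∑_d b_d 2^d C(n,d)` -/
noncomputable def ev (b : ℕ → ℤ) (n : ℕ) : ℤ := phi b ((1 + 2 * Polynomial.X) ^ n)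

/-- left shift -/
def sh (b : ℕ → ℤ) : ℕ → ℤ := fun d => b (d + 1)

lemma ev_zero (b : ℕ → ℤ) : ev b 0 = b 0 := by rw [ev, pow_zero, phi_one]

lemma ev_succ (b : ℕ → ℤ) (n : ℕ) : ev b (n + 1) = ev b n + 2 * ev (sh b) n := by
  have h : (1 + 2 * Polynomial.X : ℤ[X]) ^ (n + 1) =
      (1 + 2 * Polynomial.X) ^ n + (2 : ℤ) • ((1 + 2 * Polynomial.X) ^ n * Polynomial.X) := by
    rw [pow_succ, zsmul_eq_mul]
    push_cast
    ring
  rw [ev, h, map_add, map_smul, phi_mul_X, smul_eq_mul]
  rfl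

lemma ev_one (b : ℕ → ℤ) : ev b 1 = b 0 + 2 * b 1 := by
  rw [ev_succ, ev_zero, ev_zero]
  rfl

lemma ev_add (b b' : ℕ → ℤ) (n : ℕ) : ev (fun d => b d + b' d) n = ev b n + ev b' n :=
  phi_add _ _ _

lemma ev_smul (k : ℤ) (b : ℕ → ℤ) (n : ℕ) : ev (fun d => k * b d) n = k * ev b n :=
  phi_smul _ _ _

/-- coordinates of the even part -/
noncomputable def S (b : ℕ → ℤ) : ℕ → ℤ :=
  fun j => 2 ^ j * phi b ((Polynomial.X + Polynomial.X ^ 2) ^ j)

lemma ev_sum (b : ℕ → ℤ) (i : ℕ) :
    ev b i = ∑ j ∈ range (i + 1), (i.choose j : ℤ) * (2 ^ j * b j) := by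
  have h : (1 + 2 * Polynomial.X : ℤ[X]) ^ i =
      ∑ j ∈ range (i + 1), ((i.choose j : ℤ) * 2 ^ j) • Polynomial.X ^ j := by
    rw [add_comm, add_pow]
    apply sum_congr rfl
    intro j _
    rw [zsmul_eq_mul]
    push_cast
    ring
  rw [ev, h, map_sum]
  apply sum_congr rfl
  intro j _
  rw [map_smul, phi_Xpow, smul_eq_mul, mul_assoc]

lemma ev_even (b : ℕ → ℤ) (i : ℕ) : ev b (2 * i) = ev (S b) i := by
  have h : (1 + 2 * Polynomial.X : ℤ[X]) ^ (2 * i) =
      ∑ j ∈ range (i + 1), ((i.choose j : ℤ) * 4 ^ j) •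
        (Polynomial.X + Polynomial.X ^ 2) ^ j := by
    have h1 : (1 + 2 * Polynomial.X : ℤ[X]) ^ 2 =
        4 * (Polynomial.X + Polynomial.X ^ 2) + 1 := by ring
    rw [pow_mul, h1, add_pow]
    apply sum_congr rfl
    intro j _
    rw [zsmul_eq_mul, mul_pow]
    push_cast
    ring
  rw [ev, h, map_sum, ev_sum]
  apply sum_congr rfl
  intro j _
  rw [map_smul, smul_eq_mul, S]
  rw [show (4 : ℤ) ^ j = 2 ^ j * 2 ^ j by rw [← mul_pow]; norm_num]
  ring

end functional

/-- multiplication by one factor `(1+x)/(1-x)` in coordinates -/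
def T1 (b : ℕ → ℤ) : ℕ → ℤ
  | 0 => b 0
  | d + 1 => b (d + 1) + b d

/-- multiplication by `((1+x)/(1-x))^m` in coordinates -/
def T (m : ℕ) (b : ℕ → ℤ) : ℕ → ℤ := T1^[m] b

/-- `(1+x)/(1-x)` -/
noncomputable def R : PowerSeries ℤ := (1 + X) * geo 1

/-- the power series with coefficients `ev b n` -/
noncomputable def G (b : ℕ → ℤ) : PowerSeries ℤ := PowerSeries.mk (ev b)

lemma geo_mul (d : ℕ) (hd : 0 < d) : (1 - X ^ d) * geo d = 1 := by
  ext n
  rw [sub_mul, one_mul, map_sub, coeff_X_pow_mul', geo, coeff_mk]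
  simp only [coeff_mk, coeff_one]
  by_cases hn : n = 0
  · subst hn
    simp [Nat.not_le.2 hd]
  · by_cases h1 : d ∣ n
    · have h2 : d ≤ n := Nat.le_of_dvd (Nat.pos_of_ne_zero hn) h1
      rw [if_pos h1, if_pos h2, if_pos (Nat.dvd_sub h1 dvd_rfl), if_neg hn]
      norm_num
    · rw [if_neg h1, if_neg hn]
      by_cases h2 : d ≤ n
      · rw [if_pos h2, if_neg]
        · norm_num
        · intro h3
          apply h1
          have := Nat.dvd_add h3 (dvd_refl d)
          rwa [Nat.sub_add_cancel h2] at this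
      · rw [if_neg h2]
        norm_num

lemma G_mul_R (b : ℕ → ℤ) : G b * R = G (T1 b) := by
  have h : G b * (1 + X) = G (T1 b) * (1 - X) := by
    ext n
    rw [mul_add, mul_sub, mul_one, mul_one, map_add, map_sub]
    rcases n with _ | n
    · simp [G, ev_zero, T1]
    · rw [coeff_succ_mul_X, coeff_succ_mul_X]
      simp only [G, coeff_mk]
      have h1 : sh (T1 b) = fun d => sh b d + b d := by
        funext d
        rfl
      rw [ev_succ (T1 b), h1, ev_add, ev_succ b]
      ring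
  have h2 := geo_mul 1 one_pos
  rw [pow_one] at h2
  calc G b * R = (G b * (1 + X)) * geo 1 := by rw [R]; ring
    _ = G (T1 b) * ((1 - X) * geo 1) := by rw [h]; ring
    _ = G (T1 b) := by rw [h2, mul_one]

lemma G_mul_Rpow (m : ℕ) (b : ℕ → ℤ) : G b * R ^ m = G (T m b) := by
  induction m with
  | zero => simp [T]
  | succ m ih =>
    rw [pow_succ, ← mul_assoc, ih, G_mul_R, T, T, Function.iterate_succ_apply']

/-! ### Linear algebra of the coordinates -/

lemma T_succ (m : ℕ) (b : ℕ → ℤ) : T (m + 1) b = T1 (T m b) := by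
  rw [T, Function.iterate_succ_apply']
  rfl

lemma T_at_zero (m : ℕ) (b : ℕ → ℤ) : T m b 0 = b 0 := by
  induction m with
  | zero => rfl
  | succ m ih => rw [T_succ]; exact ih

lemma T_at_one (m : ℕ) (b : ℕ → ℤ) : T m b 1 = b 1 + m * b 0 := by
  induction m with
  | zero => simp [T]
  | succ m ih =>
    rw [T_succ]
    change T m b 1 + T m b 0 = _
    rw [ih, T_at_zero]
    push_cast
    ring

lemma T_at_two (m : ℕ) (b : ℕ → ℤ) : T m b 2 = b 2 + m * b 1 + m.choose 2 * b 0 := by
  induction m with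
  | zero => simp [T]
  | succ m ih =>
    rw [T_succ]
    change T m b 2 + T m b 1 = _
    rw [ih, T_at_one, Nat.choose_succ_succ' m 1, Nat.choose_one_right]
    push_cast
    ring

lemma T_lin (m : ℕ) (b b' : ℕ → ℤ) (k : ℤ) :
    T m (fun d => b d + k * b' d) = fun d => T m b d + k * T m b' d := by
  induction m with
  | zero => rfl
  | succ m ih =>
    rw [T_succ, ih, T_succ, T_succ]
    funext d
    rcases d with _ | d
    · rfl
    · simp only [T1]
      ring

lemma T_dvd (m : ℕ) (b : ℕ → ℤ) (k : ℤ) (h : ∀ d, k ∣ b d) : ∀ d, k ∣ T m b d := by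
  induction m with
  | zero => exact h
  | succ m ih =>
    intro d
    rw [T_succ]
    rcases d with _ | d
    · exact ih 0
    · exact dvd_add (ih _) (ih _)

/-- the first unit vector -/
def del : ℕ → ℤ := fun d => if d = 0 then 1 else 0

lemma T_del (m d : ℕ) : T m del d = m.choose d := by
  induction m generalizing d with
  | zero =>
    rcases d with _ | d
    · rfl
    · simp [T, del]
  | succ m ih =>
    rw [T_succ]
    rcases d with _ | d
    · simp [T1, ih]
    · simp only [T1, ih, Nat.choose_succ_succ']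
      push_cast
      ring

lemma S_zero (b : ℕ → ℤ) : S b 0 = b 0 := by simp [S, phi_one]

lemma S_lin (b b' : ℕ → ℤ) (k : ℤ) :
    S (fun d => b d + k * b' d) = fun d => S b d + k * S b' d := by
  funext j
  simp only [S]
  rw [phi_add, phi_smul]
  ring

/-- one zero digit -/
noncomputable def L (m : ℕ) (b : ℕ → ℤ) : ℕ → ℤ := S (T m b)

lemma L_zero (m : ℕ) (b : ℕ → ℤ) : L m b 0 = b 0 := by rw [L, S_zero, T_at_zero]

lemma L_lin (m : ℕ) (b b' : ℕ → ℤ) (k : ℤ) :
    L m (fun d => b d + k * b' d) = fun d => L m b d + k * L m b' d := by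
  rw [L, T_lin, S_lin]
  rfl

lemma Lit_zero (m a : ℕ) (b : ℕ → ℤ) : (L m)^[a] b 0 = b 0 := by
  induction a with
  | zero => rfl
  | succ a ih => rw [Function.iterate_succ_apply', L_zero, ih]

lemma Lit_lin (m a : ℕ) (b b' : ℕ → ℤ) (k : ℤ) :
    (L m)^[a] (fun d => b d + k * b' d) = fun d => (L m)^[a] b d + k * (L m)^[a] b' d := by
  induction a with
  | zero => rfl
  | succ a ih =>
    rw [Function.iterate_succ_apply', ih, L_lin, Function.iterate_succ_apply',
      Function.iterate_succ_apply']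

lemma L_contr (m s : ℕ) (b : ℕ → ℤ) (h0 : b 0 = 0) (h : ∀ d, (2 : ℤ) ^ s ∣ b d) :
    ∀ d, (2 : ℤ) ^ (s + 1) ∣ L m b d := by
  intro d
  rcases d with _ | d
  · rw [L_zero, h0]
    exact dvd_zero _
  · rw [L, S, pow_succ 2 s, pow_succ 2 d, mul_comm ((2 : ℤ) ^ s) 2, mul_comm ((2 : ℤ) ^ d) 2,
      mul_assoc]
    exact mul_dvd_mul_left _ (Dvd.dvd.mul_left (phi_dvd _ _ (T_dvd m b _ h) _) _)

lemma Lit_contr (m a : ℕ) (b : ℕ → ℤ) (h0 : b 0 = 0) : ∀ d, (2 : ℤ) ^ a ∣ (L m)^[a] b d := by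
  induction a with
  | zero => intro d; simp
  | succ a ih =>
    rw [Function.iterate_succ_apply']
    apply L_contr
    · rw [Lit_zero, h0]
    · exact ih

/-- Long runs of zero digits forget everything but the value at `0`. -/
lemma Lit_rank_one (m a : ℕ) (b : ℕ → ℤ) (d : ℕ) :
    (2 : ℤ) ^ a ∣ (L m)^[a] b d - b 0 * (L m)^[a] del d := by
  have h := Lit_contr m a (fun d => b d + (-b 0) * del d) (by simp [del]) d
  rw [Lit_lin] at h
  simpa [sub_eq_add_neg] using h

/-! ### Numerics for `m = 1023` -/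

lemma phi_pow_sum (b : ℕ → ℤ) (j : ℕ) :
    phi b ((Polynomial.X + Polynomial.X ^ 2) ^ j) =
      ∑ s ∈ range (j + 1), (j.choose s : ℤ) * b (j + s) := by
  have h : (Polynomial.X + Polynomial.X ^ 2 : Polynomial ℤ) ^ j =
      ∑ s ∈ range (j + 1), (j.choose s : ℤ) • Polynomial.X ^ (j + s) := by
    rw [show (Polynomial.X + Polynomial.X ^ 2 : Polynomial ℤ) =
      Polynomial.X * (Polynomial.X + 1) by ring, mul_pow, add_pow, mul_sum]
    apply sum_congr rfl
    intro s _
    rw [zsmul_eq_mul, one_pow, mul_one, pow_add]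
    push_cast
    ring
  rw [h, map_sum]
  apply sum_congr rfl
  intro s _
  rw [map_smul, phi_Xpow, smul_eq_mul]

lemma Ldel_dvd (j : ℕ) (hj : 1 ≤ j) : (2 : ℤ) ^ 10 ∣ L 1023 del j := by
  rcases le_or_gt 10 j with h | h
  · rw [L, S]
    exact Dvd.dvd.mul_right (pow_dvd_pow 2 h) _
  · rw [L, S, phi_pow_sum]
    simp_rw [T_del, Nat.choose_eq_descFactorial_div_factorial]
    interval_cases j <;> decide +kernel

lemma Ldel_two : (2 : ℤ) ^ 11 ∣ L 1023 del 2 - 2 ^ 10 := by
  rw [L, S, phi_pow_sum]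
  simp_rw [T_del, Nat.choose_eq_descFactorial_div_factorial]
  decide +kernel

/-- `x a = L^a del` -/
noncomputable def xx (a : ℕ) : ℕ → ℤ := (L 1023)^[a] del

lemma xx_zero (a : ℕ) : xx a 0 = 1 := by rw [xx, Lit_zero]; rfl

lemma xx_succ (a : ℕ) : xx (a + 1) = L 1023 (xx a) := by
  rw [xx, Function.iterate_succ_apply']
  rfl

lemma xx_dvd (a j : ℕ) (hj : 1 ≤ j) : (2 : ℤ) ^ 10 ∣ xx a j := by
  induction a generalizing j with
  | zero =>
    have : xx 0 j = 0 := by simp [xx, del]; omega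
    rw [this]
    exact dvd_zero _
  | succ a ih =>
    have h1 : ∀ d, (2 : ℤ) ^ 10 ∣ xx a d + (-1) * del d := by
      intro d
      rcases d with _ | d
      · rw [xx_zero]; simp [del]
      · have : del (d + 1) = 0 := by simp [del]
        rw [this, mul_zero, add_zero]
        exact ih (d + 1) (by omega)
    have h2 := L_contr 1023 10 (fun d => xx a d + (-1) * del d) (by rw [xx_zero]; simp [del]) h1 j
    rw [L_lin, ← xx_succ] at h2
    have h3 := Ldel_dvd j hj
    have h4 : (2 : ℤ) ^ 10 ∣ xx (a + 1) j + (-1) * L 1023 del j :=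
      dvd_trans (pow_dvd_pow 2 (by norm_num)) h2
    have h5 := dvd_add h4 h3
    have h6 : xx (a + 1) j + (-1) * L 1023 del j + L 1023 del j = xx (a + 1) j := by ring
    rwa [h6] at h5

lemma xx_two (a : ℕ) : (2 : ℤ) ^ 11 ∣ xx (a + 1) 2 - 2 ^ 10 := by
  have h1 : ∀ d, (2 : ℤ) ^ 10 ∣ xx a d + (-1) * del d := by
    intro d
    rcases d with _ | d
    · rw [xx_zero]; simp [del]
    · have : del (d + 1) = 0 := by simp [del]
      rw [this, mul_zero, add_zero]
      exact xx_dvd a (d + 1) (by omega)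
  have h2 := L_contr 1023 10 (fun d => xx a d + (-1) * del d) (by rw [xx_zero]; simp [del]) h1 2
  rw [L_lin, ← xx_succ] at h2
  have h3 := dvd_add h2 Ldel_two
  have h6 : xx (a + 1) 2 + (-1) * L 1023 del 2 + (L 1023 del 2 - 2 ^ 10) =
    xx (a + 1) 2 - 2 ^ 10 := by ring
  rwa [h6] at h3

lemma xx_one (a : ℕ) : xx (a + 1) 1 = 2 * (523776 + 1024 * xx a 1 + xx a 2) := by
  rw [xx_succ, L, S, phi_pow_sum]
  simp only [sum_range_succ, range_zero, sum_empty, Nat.choose_zero_right, Nat.choose_self]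
  rw [show 1 + 0 = 1 from rfl, show 1 + 1 = 2 from rfl, T_at_one, T_at_two, xx_zero,
    show Nat.choose 1023 2 = 522753 by decide +kernel]
  push_cast
  ring

/-- the multiplier -/
noncomputable def kap (a : ℕ) : ℤ := 2047 + 2 * xx a 1

lemma kap_mod (a : ℕ) : (2 : ℤ) ^ 13 ∣ kap (a + 2) + 1 - 2 ^ 12 := by
  obtain ⟨y, hy⟩ := xx_dvd (a + 1) 1 le_rfl
  obtain ⟨z, hz⟩ := xx_two a
  rw [kap, xx_one, hy]
  have hz' : xx (a + 1) 2 = 2 ^ 10 + 2 ^ 11 * z := by linarith
  rw [hz']
  refine ⟨256 + 512 * y + z, ?_⟩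
  ring

lemma kap_pow (a j : ℕ) : (2 : ℤ) ^ (14 + j) ∣ kap (a + 2) ^ (2 ^ (j + 1)) - 1 - 2 ^ (13 + j) := by
  induction j with
  | zero =>
    obtain ⟨y, hy⟩ := kap_mod a
    have hy' : kap (a + 2) = -1 + 2 ^ 12 + 2 ^ 13 * y := by linarith
    rw [hy']
    refine ⟨-1 - y + 2 ^ 10 * (1 + 2 * y) ^ 2, ?_⟩
    ring
  | succ j ih =>
    obtain ⟨y, hy⟩ := ih
    have hy' : kap (a + 2) ^ (2 ^ (j + 1)) = 1 + 2 ^ (13 + j) + 2 ^ (14 + j) * y := by linarith
    rw [pow_succ 2 (j + 1), pow_mul, hy']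
    refine ⟨y + 2 ^ (11 + j) * (1 + 2 * y) ^ 2, ?_⟩
    ring

/-! ### Sections of the product -/

lemma coeff_expand_ite (d : ℕ) (hd : d ≠ 0) (f : PowerSeries ℤ) (n : ℕ) :
    coeff n (expand d hd f) = if d ∣ n then coeff (n / d) f else 0 := by
  split_ifs with h
  · obtain ⟨k, rfl⟩ := h
    rw [coeff_expand_mul, Nat.mul_div_cancel_left _ (Nat.pos_of_ne_zero hd)]
  · exact coeff_expand_of_not_dvd _ _ _ h

lemma sec_mul (d n : ℕ) (hd : d ≠ 0) (hn : n < d) (f g : PowerSeries ℤ) (i : ℕ) :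
    coeff (n + d * i) (f * expand d hd g) =
      coeff i ((PowerSeries.mk fun l => coeff (n + d * l) f) * g) := by
  rw [coeff_mul, coeff_mul]
  symm
  apply Finset.sum_of_injOn (fun p : ℕ × ℕ => (n + d * p.1, d * p.2))
  · rintro ⟨a, b⟩ _ ⟨a', b'⟩ _ h
    simp only [Prod.mk.injEq, add_right_inj] at h
    have hd' := Nat.pos_of_ne_zero hd
    exact Prod.ext (Nat.eq_of_mul_eq_mul_left hd' h.1) (Nat.eq_of_mul_eq_mul_left hd' h.2)
  · rintro ⟨a, b⟩ h
    simp only [mem_coe, HasAntidiagonal.mem_antidiagonal] at h ⊢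
    rw [← h]
    ring
  · rintro ⟨a, b⟩ h h'
    simp only [HasAntidiagonal.mem_antidiagonal] at h
    rw [coeff_expand_ite]
    split_ifs with hdb
    · exfalso
      obtain ⟨k, rfl⟩ := hdb
      apply h'
      have hk : k ≤ i := by
        by_contra hk
        push Not at hk
        have : d * (i + 1) ≤ d * k := Nat.mul_le_mul_left d hk
        rw [mul_add, mul_one] at this
        omega
      refine ⟨(i - k, k), ?_, ?_⟩
      · simp only [mem_coe, HasAntidiagonal.mem_antidiagonal]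
        omega
      · simp only [Prod.mk.injEq, and_true]
        have : d * i = d * (i - k) + d * k := by rw [← mul_add]; congr 1; omega
        omega
    · rw [mul_zero]
  · rintro ⟨a, b⟩ _
    simp only [coeff_mk]
    rw [coeff_expand_mul]

/-- `∏_{j < b} ((1 + x^{2^j}) / (1 - x^{2^j}))^m` -/
noncomputable def E (m b : ℕ) : PowerSeries ℤ :=
  ∏ j ∈ range b, expand (2 ^ j) (pow_ne_zero j two_ne_zero) (R ^ m)

lemma E_succ (m b : ℕ) :
    E m (b + 1) = E m b * expand (2 ^ b) (pow_ne_zero b two_ne_zero) (R ^ m) := by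
  rw [E, prod_range_succ]
  rfl

/-- The coefficients of `x^{n + 2^b i}` in `E m b` are `ev s i`. -/
def Inv (m n b : ℕ) (s : ℕ → ℤ) : Prop := n < 2 ^ b ∧ ∀ i, coeff (n + 2 ^ b * i) (E m b) = ev s i

lemma Inv.next {m n b : ℕ} {s : ℕ → ℤ} (h : Inv m n b s) (l : ℕ) :
    coeff (n + 2 ^ b * l) (E m (b + 1)) = ev (T m s) l := by
  rw [E_succ, sec_mul _ _ _ h.1]
  have : (PowerSeries.mk fun l => coeff (n + 2 ^ b * l) (E m b)) = G s := by
    ext i
    rw [coeff_mk, h.2, G, coeff_mk]
  rw [this, G_mul_Rpow, G, coeff_mk]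

lemma Inv.zero {m n b : ℕ} {s : ℕ → ℤ} (h : Inv m n b s) : Inv m n (b + 1) (L m s) := by
  refine ⟨lt_of_lt_of_le h.1 (Nat.pow_le_pow_right two_pos (Nat.le_succ b)), fun i => ?_⟩
  rw [pow_succ, mul_assoc, h.next, ev_even]
  rfl

/-- one digit `1` -/
noncomputable def O (m : ℕ) (s : ℕ → ℤ) : ℕ → ℤ := S (fun d => T m s d + 2 * sh (T m s) d)

lemma Inv.one {m n b : ℕ} {s : ℕ → ℤ} (h : Inv m n b s) : Inv m (n + 2 ^ b) (b + 1) (O m s) := by
  refine ⟨?_, fun i => ?_⟩
  · have := h.1
    rw [pow_succ]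
    omega
  · rw [show n + 2 ^ b + 2 ^ (b + 1) * i = n + 2 ^ b * (2 * i + 1) by ring, h.next, ev_succ,
      O, ← ev_even, ev_add, ev_smul]

lemma Inv.zeros {m n b : ℕ} {s : ℕ → ℤ} (h : Inv m n b s) (a : ℕ) :
    Inv m n (b + a) ((L m)^[a] s) := by
  induction a with
  | zero => exact h
  | succ a ih => rw [Function.iterate_succ_apply', ← add_assoc]; exact ih.zero

lemma O_zero (m : ℕ) (s : ℕ → ℤ) : O m s 0 = (1 + 2 * m) * s 0 + 2 * s 1 := by
  rw [O, S_zero]
  simp only [sh]
  rw [T_at_zero, zero_add, T_at_one]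
  ring

/-- coefficients of `R^m` at positive indices -/
lemma coeff_Rpow_succ (m l : ℕ) : coeff (l + 1) (R ^ m) = 2 * ev (sh (T m del)) l := by
  have h1 := G_mul_Rpow m del
  have h2 : G del = geo 1 := by
    ext n
    rw [G, coeff_mk, geo, coeff_mk, if_pos (one_dvd n)]
    induction n with
    | zero => rw [ev_zero]; rfl
    | succ n ih =>
      rw [ev_succ, ih]
      have : sh del = fun d => 0 * del d := by
        funext d
        simp [sh, del]
      rw [this, ev_smul]
      ring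
  rw [h2] at h1
  have h3 := geo_mul 1 one_pos
  rw [pow_one] at h3
  have h4 : R ^ m = G (T m del) * (1 - X) := by
    rw [← h1]
    calc R ^ m = ((1 - X) * geo 1) * R ^ m := by rw [h3, one_mul]
      _ = _ := by ring
  rw [h4, mul_sub, mul_one, map_sub, coeff_succ_mul_X, G, coeff_mk, coeff_mk, ev_succ]
  ring

lemma coeff_Rpow_zero (m : ℕ) : coeff 0 (R ^ m) = 1 := by
  rw [coeff_zero_eq_constantCoeff_apply, map_pow]
  have : constantCoeff R = 1 := by
    rw [R, map_mul, ← coeff_zero_eq_constantCoeff_apply (geo 1), geo, coeff_mk]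
    simp
  rw [this, one_pow]

lemma Inv_two (m : ℕ) : ∃ s, Inv m 2 2 s := by
  -- even part of `R^m` is `1 + X * s'`
  set v : ℕ → ℤ := sh (T m del) with hv
  -- `s' i = coeff (2i+2) R^m = 2 ev v (2 i + 1)`
  set w : ℕ → ℤ := S (fun d => 2 * v d + 4 * sh v d) with hw
  have h1 : ∀ i, coeff (2 * i + 2) (R ^ m) = ev w i := by
    intro i
    rw [show 2 * i + 2 = (2 * i + 1) + 1 by ring, coeff_Rpow_succ, ← hv, ev_succ, hw, ← ev_even]
    have h2 : ev (fun d => 2 * v d + 4 * sh v d) (2 * i) =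
        ev (fun d => 2 * v d) (2 * i) + ev (fun d => 4 * sh v d) (2 * i) := ev_add _ _ _
    rw [h2, ev_smul, ev_smul]
    ring
  refine ⟨S (fun d => 2 * v d + T m w d), by norm_num, fun i => ?_⟩
  have hE : E m 2 = R ^ m * expand 2 two_ne_zero (R ^ m) := by
    rw [E, prod_range_succ, prod_range_succ, prod_range_zero, one_mul]
    simp
  rw [hE, show 2 + 2 ^ 2 * i = 0 + 2 * (2 * i + 1) by ring, sec_mul 2 0 two_ne_zero two_pos]
  have h3 : (PowerSeries.mk fun l => coeff (0 + 2 * l) (R ^ m)) = 1 + X * G w := by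
    ext l
    rw [coeff_mk, zero_add, map_add]
    rcases l with _ | l
    · simp [coeff_Rpow_zero]
    · rw [coeff_succ_X_mul, G, coeff_mk, ← h1]
      simp [coeff_one, mul_add]
  rw [h3, add_mul, one_mul, mul_assoc, G_mul_Rpow, map_add, coeff_succ_X_mul, coeff_Rpow_succ, ← hv,
    G, coeff_mk, ← ev_even, ev_add, ev_smul]

lemma Inv_34 (m : ℕ) : ∃ s, Inv m 34 6 s := by
  obtain ⟨s, hs⟩ := Inv_two m
  exact ⟨_, hs.zero.zero.zero.one⟩

/-! ### The coefficients `c m n` -/

/-- the truncated product -/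
noncomputable def Pr (m J : ℕ) : PowerSeries ℤ := geo 1 ^ m * ∏ j ∈ range J, geo (2 ^ j) ^ m

lemma coeff_congr (N n : ℕ) (f f' g : PowerSeries ℤ) (h : X ^ N ∣ f - f') (hn : n < N) :
    coeff n (f * g) = coeff n (f' * g) := by
  have h1 : X ^ N ∣ f * g - f' * g := by
    rw [← sub_mul]
    exact Dvd.dvd.mul_right h g
  have h2 := X_pow_dvd_iff.1 h1 n hn
  rw [map_sub] at h2
  linarith

lemma Pr_succ (m J n : ℕ) (hn : n < 2 ^ J) : coeff n (Pr m (J + 1)) = coeff n (Pr m J) := by
  have h : Pr m (J + 1) = geo (2 ^ J) ^ m * Pr m J := by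
    rw [Pr, prod_range_succ, Pr]
    ring
  rw [h, coeff_congr (2 ^ J) n (geo (2 ^ J) ^ m) 1 (Pr m J) _ hn, one_mul]
  have h1 : geo (2 ^ J) - 1 = X ^ (2 ^ J) * geo (2 ^ J) := by
    have := geo_mul (2 ^ J) (by positivity)
    rw [sub_mul, one_mul] at this
    linear_combination this
  have h2 : geo (2 ^ J) - 1 ∣ geo (2 ^ J) ^ m - 1 ^ m := sub_dvd_pow_sub_pow _ _ _
  rw [one_pow] at h2
  refine dvd_trans ?_ h2
  rw [h1]
  exact dvd_mul_right _ _

lemma Pr_le (m J K n : ℕ) (hn : n < 2 ^ J) : coeff n (Pr m (J + K)) = coeff n (Pr m J) := by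
  induction K with
  | zero => rfl
  | succ K ih =>
    rw [← add_assoc, Pr_succ, ih]
    exact lt_of_lt_of_le hn (Nat.pow_le_pow_right two_pos (Nat.le_add_right _ _))

lemma c_eq (m n J : ℕ) (hn : n < 2 ^ J) : c m n = coeff n (Pr m J) := by
  have h0 : n < 2 ^ (n + 1) := lt_trans (Nat.lt_succ_self n) Nat.lt_two_pow_self
  have h1 := Pr_le m J (n + 1) n hn
  have h2 := Pr_le m (n + 1) J n h0
  rw [add_comm] at h2
  rw [← h1, h2]
  rfl

lemma expand_R (j : ℕ) : expand (2 ^ j) (pow_ne_zero j two_ne_zero) R =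
    (1 + X ^ (2 ^ j)) * geo (2 ^ j) := by
  rw [R, map_mul, map_add, map_one, expand_X]
  congr 1
  ext n
  rw [coeff_expand_ite, geo, coeff_mk, geo, coeff_mk]
  simp

lemma prod_one_add (b : ℕ) :
    (∏ j ∈ range b, (1 + X ^ (2 ^ j) : PowerSeries ℤ)) * (1 - X) = 1 - X ^ (2 ^ b) := by
  induction b with
  | zero => simp
  | succ b ih =>
    rw [prod_range_succ, mul_right_comm, ih, pow_succ, pow_mul]
    ring

lemma E_eq (m b : ℕ) : E m b = (1 - X ^ (2 ^ b)) ^ m * Pr m b := by
  have h1 : E m b = (∏ j ∈ range b, (1 + X ^ (2 ^ j) : PowerSeries ℤ)) ^ m *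
      ∏ j ∈ range b, geo (2 ^ j) ^ m := by
    rw [E, ← prod_pow, ← prod_mul_distrib]
    apply prod_congr rfl
    intro j _
    rw [map_pow, expand_R, mul_pow]
  have h2 : (∏ j ∈ range b, (1 + X ^ (2 ^ j) : PowerSeries ℤ)) = (1 - X ^ (2 ^ b)) * geo 1 := by
    have h3 := geo_mul 1 one_pos
    rw [pow_one] at h3
    rw [← prod_one_add, mul_assoc, h3, mul_one]
  rw [h1, h2, mul_pow, Pr, mul_assoc]

lemma c_eq_E (m n b : ℕ) (hn : n < 2 ^ b) : c m n = coeff n (E m b) := by
  rw [E_eq, coeff_congr (2 ^ b) n ((1 - X ^ (2 ^ b)) ^ m) 1 (Pr m b) _ hn, one_mul, c_eq m n b hn]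
  have h2 : (1 - X ^ (2 ^ b) : PowerSeries ℤ) - 1 ∣ (1 - X ^ (2 ^ b)) ^ m - 1 ^ m :=
    sub_dvd_pow_sub_pow _ _ _
  rw [one_pow] at h2
  refine dvd_trans ⟨-1, ?_⟩ h2
  ring

lemma Inv.c {m n b : ℕ} {s : ℕ → ℤ} (h : Inv m n b s) : c m n = s 0 := by
  have := h.2 0
  rw [mul_zero, add_zero, ev_zero] at this
  rw [c_eq_E m n b h.1, this]

/-! ### The value `c 1023 34` by logarithmic differentiation -/

/-- `x d/dx` -/
noncomputable def th (f : PowerSeries ℤ) : PowerSeries ℤ := X * PowerSeries.derivative ℤ f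

lemma coeff_th (f : PowerSeries ℤ) (n : ℕ) : coeff n (th f) = n * coeff n f := by
  rcases n with _ | n
  · simp [th]
  · rw [th, coeff_succ_X_mul, coeff_derivative]
    push_cast
    ring

lemma th_mul (f g : PowerSeries ℤ) : th (f * g) = th f * g + f * th g := by
  rw [th, Derivation.leibniz, th, th, smul_eq_mul, smul_eq_mul]
  ring

lemma th_geo (d : ℕ) (hd : 0 < d) : th (geo d) = geo d * ((d : PowerSeries ℤ) * (geo d - 1)) := by
  have h1 := geo_mul d hd
  have h2 : th ((1 - X ^ d) * geo d) = 0 := by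
    rw [h1]
    ext n
    rw [coeff_th, coeff_one]
    split_ifs with h
    · subst h; simp
    · simp
  have h3 : th (1 - X ^ d : PowerSeries ℤ) = -((d : PowerSeries ℤ) * X ^ d) := by
    ext n
    rw [coeff_th, map_sub, coeff_one, coeff_X_pow, map_neg]
    have : ((d : PowerSeries ℤ) * X ^ d) = (C (d : ℤ)) * X ^ d := by simp
    rw [this, coeff_C_mul, coeff_X_pow]
    by_cases hn : n = 0
    · subst hn
      simp [hd.ne]
    · rw [if_neg hn]
      split_ifs with h
      · subst h; ring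
      · simp
  rw [th_mul, h3] at h2
  have h4 : X ^ d * geo d = geo d - 1 := by linear_combination -h1
  linear_combination geo d * h2 - th (geo d) * h1 + (d : PowerSeries ℤ) * geo d * h4

/-- `f` has logarithmic derivative `g` -/
def LD (f g : PowerSeries ℤ) : Prop := th f = f * g

lemma LD.mul {f g f' g' : PowerSeries ℤ} (h : LD f g) (h' : LD f' g') : LD (f * f') (g + g') := by
  unfold LD at *
  rw [th_mul, h, h']
  ring

lemma LD.pow {f g : PowerSeries ℤ} (h : LD f g) (m : ℕ) :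
    LD (f ^ m) ((m : PowerSeries ℤ) * g) := by
  induction m with
  | zero =>
    unfold LD
    rw [pow_zero]
    ext n
    rw [coeff_th, coeff_one]
    split_ifs with h
    · subst h; simp
    · simp
  | succ m ih =>
    have := ih.mul h
    unfold LD at *
    rw [pow_succ, this]
    push_cast
    ring

/-- the coefficients of the logarithmic derivative of the product (divided by `m`) -/
def bet (k : ℕ) : ℤ :=
  if k = 0 then 0 else 1 + ∑ j ∈ range 6, (if 2 ^ j ∣ k then 2 ^ j else 0)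

lemma LD_Pr (m : ℕ) : LD (Pr m 6) ((m : PowerSeries ℤ) * PowerSeries.mk bet) := by
  have h1 : LD (geo 1 ^ m) _ := LD.pow (th_geo 1 one_pos) m
  have h2 : ∀ J, LD (∏ j ∈ range J, geo (2 ^ j) ^ m) ((m : PowerSeries ℤ) *
      ∑ j ∈ range J, (((2 ^ j : ℕ) : PowerSeries ℤ) * (geo (2 ^ j) - 1))) := by
    intro J
    induction J with
    | zero =>
      have := (LD.pow (th_geo 1 one_pos) 0)
      simpa using this
    | succ J ih =>
      rw [prod_range_succ, sum_range_succ, mul_add]
      exact ih.mul (LD.pow (th_geo (2 ^ J) (by positivity)) m)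
  have h3 := h1.mul (h2 6)
  rw [← mul_add] at h3
  have h4 : ((1 : ℕ) : PowerSeries ℤ) * (geo 1 - 1) +
      ∑ j ∈ range 6, (((2 ^ j : ℕ) : PowerSeries ℤ) * (geo (2 ^ j) - 1)) = PowerSeries.mk bet := by
    ext n
    rw [map_add, map_sum, coeff_mk]
    have h5 : ∀ a d : ℕ, coeff n ((a : PowerSeries ℤ) * (geo d - 1)) =
        if n = 0 then 0 else (if d ∣ n then (a : ℤ) else 0) := by
      intro a d
      have : (a : PowerSeries ℤ) = C (a : ℤ) := by simp
      rw [this, coeff_C_mul, map_sub, geo, coeff_mk, coeff_one]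
      by_cases hn : n = 0
      · subst hn; simp
      · simp [hn]
    rw [h5]
    simp_rw [h5]
    rw [bet]
    by_cases hn : n = 0
    · simp [hn]
    · simp [hn]
  rw [h4] at h3
  exact h3

lemma rec_c (m n : ℕ) : (n : ℤ) * coeff n (Pr m 6) =
    ∑ i ∈ range (n + 1), coeff i (Pr m 6) * (m * bet (n - i)) := by
  have h := LD_Pr m
  unfold LD at h
  rw [← coeff_th, h, coeff_mul, Finset.Nat.sum_antidiagonal_eq_sum_range_succ_mk]
  apply sum_congr rfl
  intro i _
  have : (m : PowerSeries ℤ) = C (m : ℤ) := by simp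
  rw [this, coeff_C_mul, coeff_mk]

/-- the values `c 1023 n` for `n ≤ 34` -/
def tab : List ℤ := [1,
    2046,
    2095104,
    1431652354,
    734434519038,
    301703130142722,
    103382142772525056,
    30393706813584865278,
    7826148395871740098560,
    1792987184082868316903426,
    370053941009334565562861568,
    69498502556076008514990872574,
    11975994126660667417036494202882,
    1906772590454961178515360681961470,
    282171979585383516456660686870218752,
    39010097073069881288222280595085887490,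
    5060831610245772717227706243186831484926,
    618510808557119015381050307587534333843458,
    71459120286749687661175594004236246489565184,
    7828788454766664510125543336669729980781041662,
    815570943529979260100200581765790386638121662466,
    80992610980309810912443315641930604847862347302910,
    7684763735251086457781493484777839997701364584400896,
    698094836702505508087985761558644099593082351823464450,
    60830020455170898625084904184427095576710075279574251520,
    5093248539761871607334101426635844929660012101800088299518,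
    410430550740886086303944499407510666180263202864649966139392,
    31878246938029580708176590458825123735513986578506680822589442,
    2389760540291683980667499883693022241801672727801737405866563582,
    173130255285929105874598855495169861661935926261398725396921571330,
    12135733165800140159034754200455996219068689467628699799511736776704,
    823977750458511832935971246931859815144719741170935610699342570158078,
    54246617086529346964311454447968468904438768055860066599608888780912640,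
    3466259004327298420522840332564855050267861022446189177191341576819218434,
    215168488863669165214515247286661365967788112762740331096828664086544779264]

lemma tab_spec : ∀ n ∈ range 35, (n : ℤ) * tab.getD n 0 =
    ∑ i ∈ range n, tab.getD i 0 * (1023 * bet (n - i)) := by
  decide +kernel

lemma coeff_tab (n : ℕ) (hn : n < 35) : coeff n (Pr 1023 6) = tab.getD n 0 := by
  induction n using Nat.strong_induction_on with
  | _ n ih =>
    rcases n with _ | n
    · have h1 : coeff 0 (Pr 1023 6) = 1 := by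
        have h2 : ∀ d, constantCoeff (geo d) = 1 := by
          intro d
          rw [← coeff_zero_eq_constantCoeff_apply, geo, coeff_mk]
          simp
        rw [coeff_zero_eq_constantCoeff_apply, Pr, map_mul, map_pow, map_prod]
        simp_rw [map_pow, h2]
        simp
      rw [h1]
      rfl
    · have h1 := rec_c 1023 (n + 1)
      have h2 := tab_spec (n + 1) (by simp; omega)
      rw [sum_range_succ, Nat.sub_self] at h1
      have h3 : bet 0 = 0 := rfl
      rw [h3, mul_zero, mul_zero, add_zero] at h1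
      have h4 : ∑ i ∈ range (n + 1), coeff i (Pr 1023 6) * (((1023 : ℕ) : ℤ) * bet (n + 1 - i)) =
          ∑ i ∈ range (n + 1), tab.getD i 0 * (1023 * bet (n + 1 - i)) := by
        apply sum_congr rfl
        intro i hi
        rw [ih i (by simpa using hi) (by simp at hi; omega)]
        push_cast
        rfl
      rw [h4, ← h2] at h1
      have h5 : ((n + 1 : ℕ) : ℤ) ≠ 0 := by positivity
      exact mul_left_cancel₀ h5 h1

lemma c_34 : (2 : ℤ) ^ 24 ∣ c 1023 34 - 2 ^ 11 := by
  rw [c_eq 1023 34 6 (by norm_num), coeff_tab 34 (by norm_num)]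
  decide +kernel

/-! ### Conclusion -/

/-- The coefficient is multiplied by `kap a` modulo `2^a`. -/
lemma step (a n b : ℕ) (s : ℕ → ℤ) (h : Inv 1023 n b s) :
    ∃ n' b' s', Inv 1023 n' b' s' ∧ n ≤ n' ∧ (2 : ℤ) ^ a ∣ s' 0 - kap a * s 0 := by
  refine ⟨_, _, _, (h.zeros a).one, Nat.le_add_right _ _, ?_⟩
  rw [O_zero, Lit_zero, kap]
  have h1 := Lit_rank_one 1023 a s 1
  have h2 : (1 + 2 * ((1023 : ℕ) : ℤ)) * s 0 + 2 * (L 1023)^[a] s 1 - (2047 + 2 * xx a 1) * s 0 =
      2 * ((L 1023)^[a] s 1 - s 0 * (L 1023)^[a] del 1) := by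
    rw [xx]
    push_cast
    ring
  rw [h2]
  exact Dvd.dvd.mul_left h1 _

lemma steps (a r n b : ℕ) (s : ℕ → ℤ) (h : Inv 1023 n b s) :
    ∃ n' b' s', Inv 1023 n' b' s' ∧ n ≤ n' ∧ (2 : ℤ) ^ a ∣ s' 0 - kap a ^ r * s 0 := by
  induction r with
  | zero => exact ⟨n, b, s, h, le_rfl, by simp⟩
  | succ r ih =>
    obtain ⟨n1, b1, s1, h1, h2, h3⟩ := ih
    obtain ⟨n2, b2, s2, h4, h5, h6⟩ := step a n1 b1 s1 h1
    refine ⟨n2, b2, s2, h4, h2.trans h5, ?_⟩
    have : s2 0 - kap a ^ (r + 1) * s 0 =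
        (s2 0 - kap a * s1 0) + kap a * (s1 0 - kap a ^ r * s 0) := by ring
    rw [this]
    exact dvd_add h6 (Dvd.dvd.mul_left h3 _)

lemma close (j : ℕ) : ∃ n b s, Inv 1023 n b s ∧ 34 ≤ n ∧ (2 : ℤ) ^ (24 + j) ∣ s 0 - 2 ^ 11 := by
  induction j with
  | zero =>
    obtain ⟨s, hs⟩ := Inv_34 1023
    refine ⟨34, 6, s, hs, le_rfl, ?_⟩
    have := c_34
    rwa [hs.c] at this
  | succ j ih =>
    obtain ⟨n, b, s, h1, h2, y, hy⟩ := ih
    rcases Int.even_or_odd y with ⟨z, hz⟩ | ⟨z, hz⟩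
    · refine ⟨n, b, s, h1, h2, z, ?_⟩
      rw [hy, hz]
      ring
    · obtain ⟨n', b', s', h3, h4, v, hv⟩ := steps (23 + j + 2) (2 ^ (j + 1)) n b s h1
      refine ⟨n', b', s', h3, h2.trans h4, ?_⟩
      obtain ⟨x, hx⟩ := kap_pow (23 + j) j
      have hs0 : s 0 = 2 ^ 11 + 2 ^ (24 + j) * (2 * z + 1) := by rw [← hz]; linarith
      have hx' : kap (23 + j + 2) ^ (2 ^ (j + 1)) = 1 + 2 ^ (13 + j) + 2 ^ (14 + j) * x := by
        linarith
      rw [hx', hs0] at hv
      have hs' : s' 0 = (1 + 2 ^ (13 + j) + 2 ^ (14 + j) * x) *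
          (2 ^ 11 + 2 ^ (24 + j) * (2 * z + 1)) + 2 ^ (23 + j + 2) * v := by linarith
      refine ⟨z + 1 + x + 2 ^ (12 + j) * (1 + 2 * x) * (2 * z + 1) + v, ?_⟩
      rw [hs']
      ring

lemma oddPart_eq (e : ℕ) (q : ℤ) (hq : ¬ (2 : ℤ) ∣ q) : oddPart (2 ^ e * q) = q := by
  have hq0 : q ≠ 0 := by rintro rfl; exact hq (dvd_zero _)
  have h2 : padicValInt 2 (2 ^ e * q) = e := by
    rw [padicValInt.mul (by positivity) hq0, padicValInt.eq_zero_of_not_dvd (z := q)
      (by exact_mod_cast hq)]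
    have : ((2 : ℤ) ^ e) = ((2 ^ e : ℕ) : ℤ) := by push_cast; rfl
    rw [this, padicValInt.of_nat, padicValNat.prime_pow]
    rfl
  rw [oddPart, h2, Int.mul_ediv_cancel_left _ (by positivity)]

/-- For `k = 5`, i.e. `m = 2^10 - 1 = 1023`, the numbers `u_m(n)` are not bounded. -/
theorem result : ∃ k : ℕ, 1 ≤ k ∧ ¬ ∃ C : ℕ, ∀ n : ℕ, 1 ≤ n → u (2 ^ (2 * k) - 1) n ≤ C := by
  refine ⟨5, by norm_num, ?_⟩
  rintro ⟨K, hK⟩
  obtain ⟨n, b, s, h1, h2, y, hy⟩ := close K
  have h3 := hK n (by omega)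
  rw [show (2 : ℕ) ^ (2 * 5) - 1 = 1023 by norm_num, u, h1.c] at h3
  have h4 : s 0 = 2 ^ 11 * (1 + 2 ^ (13 + K) * y) := by
    have : s 0 = 2 ^ 11 + 2 ^ (24 + K) * y := by linarith
    rw [this]
    ring
  have h5 : ¬ (2 : ℤ) ∣ 1 + 2 ^ (13 + K) * y := by
    intro h
    have h6 : (2 : ℤ) ∣ 2 ^ (13 + K) * y := by
      apply Dvd.dvd.mul_right
      exact dvd_pow_self 2 (by omega)
    have h7 := (dvd_add_left h6).1 h
    norm_num at h7
  rw [h4, oddPart_eq 11 _ h5, add_sub_cancel_left] at h3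
  have h8 : ((13 + K : ℕ) : ℕ∞) ≤ emultiplicity 2 ((2 : ℤ) ^ (13 + K) * y) :=
    pow_dvd_iff_le_emultiplicity.1 (dvd_mul_right _ _)
  have h9 := le_trans h8 h3
  rw [Nat.cast_le] at h9
  omega

end Pool.Agent.Results.MP_8a294c_nt.Unbounded
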